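import Pool.Agent.TH456.TM.E
import Pool.Agent.H33R2.V1a

/-!
# Heights and values of the irreducible factors of integer polynomials in two variables
-/

set_option autoImplicit false

namespace Pool.Agent.X327.AM

open Polynomial Finset
open Pool.Agent.TH456.TM

/-- the partial degrees are at most `D` -/
def Deg (D : ℕ) (P : ℤ[X][X]) : Prop := P.natDegree ≤ D ∧ ∀ j, (P.coeff j).natDegree ≤ D

lemma deg_of_dvd {D : ℕ} {P Q : ℤ[X][X]} (hP : P ≠ 0) (h : Deg D P) (hQ : Q ∣ P) : Deg D Q := by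
  obtain ⟨R, rfl⟩ := hQ
  refine ⟨?_, fun j => ?_⟩
  · have h1 := natDegree_mul (left_ne_zero_of_mul hP) (right_ne_zero_of_mul hP)
    have h2 := h.1
    omega
  · rw [natDegree_le_iff_coeff_eq_zero]
    intro N hN
    exact H33.SpecIrred.coeff_eq_zero_of_mul Q R D hP
      (fun i j hj => coeff_eq_zero_of_natDegree_lt ((h.2 i).trans_lt hj)) j N hN

/-- Kronecker's substitution -/
noncomputable def kr (D : ℕ) (P : ℤ[X][X]) : ℤ[X] := P.eval (X ^ (D + 1))

lemma kr_coeff {D : ℕ} {P : ℤ[X][X]} (h : Deg D P) (i j : ℕ) (hi : i ≤ D) :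
    (kr D P).coeff (i + (D + 1) * j) = (P.coeff j).coeff i := by
  unfold kr
  rw [eval_eq_sum_range' (n := P.natDegree + j + 1) (by omega), finsetSum_coeff,
    Finset.sum_eq_single j]
  · rw [← pow_mul, coeff_mul_X_pow', if_pos (by omega)]
    congr 1
    omega
  · intro k _ hk
    rw [← pow_mul, coeff_mul_X_pow']
    split_ifs with h1
    · rcases lt_or_gt_of_ne hk with h2 | h2
      · refine coeff_eq_zero_of_natDegree_lt ((h.2 k).trans_lt ?_)
        have h3 : (D + 1) * (k + 1) ≤ (D + 1) * j := Nat.mul_le_mul_left _ h2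
        rw [Nat.mul_succ] at h3
        omega
      · exfalso
        have h3 : (D + 1) * (j + 1) ≤ (D + 1) * k := Nat.mul_le_mul_left _ h2
        rw [Nat.mul_succ] at h3
        omega
    · rfl
  · intro hj
    exact absurd (Finset.mem_range.2 (by omega)) hj

lemma kr_bound {D : ℕ} {P : ℤ[X][X]} (h : Deg D P) (n : ℕ) :
    |(((kr D P).coeff n : ℤ) : ℝ)| ≤ hgt P := by
  have h1 : n = n % (D + 1) + (D + 1) * (n / (D + 1)) := (Nat.mod_add_div n (D + 1)).symm
  rw [h1, kr_coeff h _ _ (by have := Nat.mod_lt n (show D + 1 > 0 by omega); omega), ← Int.cast_abs,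
    Int.abs_eq_natAbs]
  exact_mod_cast le_hgt P _ _

lemma kr_natDegree {D : ℕ} {P : ℤ[X][X]} (h : Deg D P) : (kr D P).natDegree ≤ (D + 1) * (D + 1) := by
  rw [natDegree_le_iff_coeff_eq_zero]
  intro n hn
  have h1 : n = n % (D + 1) + (D + 1) * (n / (D + 1)) := (Nat.mod_add_div n (D + 1)).symm
  have h3 : D < n / (D + 1) := by
    by_contra h4
    push Not at h4
    have h5 : (D + 1) * (n / (D + 1)) ≤ (D + 1) * D := Nat.mul_le_mul_left _ h4
    have h6 := Nat.mod_lt n (show D + 1 > 0 by omega)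
    have h7 : (D + 1) * (D + 1) = (D + 1) * D + (D + 1) := by ring
    omega
  rw [h1, kr_coeff h _ _ (by have := Nat.mod_lt n (show D + 1 > 0 by omega); omega),
    coeff_eq_zero_of_natDegree_lt (h.1.trans_lt h3), coeff_zero]

lemma kr_ne {D : ℕ} {P : ℤ[X][X]} (h : Deg D P) (hP : P ≠ 0) : kr D P ≠ 0 := by
  intro h0
  apply hP
  ext j i
  rw [coeff_zero, coeff_zero]
  by_cases hi : i ≤ D
  · rw [← kr_coeff h i j hi, h0, coeff_zero]
  · exact coeff_eq_zero_of_natDegree_lt ((h.2 j).trans_lt (by omega))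

lemma factor_coeff (g h : ℤ[X]) (h0 : g * h ≠ 0) (N : ℕ) (hN : (g * h).natDegree ≤ N) (B : ℝ)
    (hB : ∀ n, |(((g * h).coeff n : ℤ) : ℝ)| ≤ B) (n : ℕ) :
    |((g.coeff n : ℤ) : ℝ)| ≤ 2 ^ N * ((N + 1) * B) := by
  have hB0 : 0 ≤ B := (abs_nonneg _).trans (hB 0)
  have hg0 : g ≠ 0 := left_ne_zero_of_mul h0
  have hh0 : h ≠ 0 := right_ne_zero_of_mul h0
  have h1 := norm_coeff_le_choose_mul_mahlerMeasure_of_one_le_mahlerMeasure n
    (g.map (Int.castRingHom ℂ)) (h.map (Int.castRingHom ℂ)) (one_le_mahlerMeasure_of_ne_zero hh0)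
  rw [← Polynomial.map_mul, coeff_map] at h1
  have h2 := mahlerMeasure_le_sum_norm_coeff ((g * h).map (Int.castRingHom ℂ))
  have h3 : ((g * h).map (Int.castRingHom ℂ)).sum (fun _ a => ‖a‖) ≤ (N + 1) * B := by
    rw [sum_over_range' _ (fun n => by simp) (N + 1)
      (Nat.lt_succ_of_le (natDegree_map_le.trans hN))]
    calc ∑ i ∈ range (N + 1), ‖((g * h).map (Int.castRingHom ℂ)).coeff i‖
        ≤ ∑ _i ∈ range (N + 1), B := by
          refine Finset.sum_le_sum fun i _ => ?_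
          rw [coeff_map, eq_intCast, Complex.norm_intCast]
          exact hB i
      _ = _ := by rw [Finset.sum_const, card_range, nsmul_eq_mul]; push_cast; ring
  have hdeg : (g.map (Int.castRingHom ℂ)).natDegree ≤ N := by
    refine natDegree_map_le.trans ?_
    rw [natDegree_mul hg0 hh0] at hN
    omega
  have h4 : (((g.map (Int.castRingHom ℂ)).natDegree.choose n : ℕ) : ℝ) ≤ 2 ^ N := by
    have h5 := Nat.choose_le_two_pow (g.map (Int.castRingHom ℂ)).natDegree n
    calc (((g.map (Int.castRingHom ℂ)).natDegree.choose n : ℕ) : ℝ)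
        ≤ ((2 ^ (g.map (Int.castRingHom ℂ)).natDegree : ℕ) : ℝ) := by exact_mod_cast h5
      _ ≤ 2 ^ N := by
          push_cast
          exact pow_le_pow_right₀ (by norm_num) hdeg
  rw [eq_intCast, Complex.norm_intCast] at h1
  calc |((g.coeff n : ℤ) : ℝ)| ≤ _ := h1
    _ ≤ 2 ^ N * ((N + 1) * B) := by
        refine mul_le_mul h4 (h2.trans h3) (mahlerMeasure_nonneg _) (by positivity)

/-- the constant for the heights of factors -/
def KK (D : ℕ) : ℝ := 2 ^ ((D + 1) * (D + 1)) * (((D + 1) * (D + 1) : ℕ) + 1)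

lemma one_le_KK (D : ℕ) : 1 ≤ KK D := by
  unfold KK
  have h1 : (1 : ℝ) ≤ 2 ^ ((D + 1) * (D + 1)) := one_le_pow₀ (by norm_num)
  have h2 : (1 : ℝ) ≤ (((D + 1) * (D + 1) : ℕ) : ℝ) + 1 := by
    have : (0 : ℝ) ≤ (((D + 1) * (D + 1) : ℕ) : ℝ) := Nat.cast_nonneg _
    linarith
  nlinarith

/-- heights of factors -/
lemma hgt_of_dvd {D : ℕ} {P Q : ℤ[X][X]} (hP : P ≠ 0) (h : Deg D P) (hQ : Q ∣ P) :
    (hgt Q : ℝ) ≤ KK D * hgt P := by
  have hQD := deg_of_dvd hP h hQ
  obtain ⟨R, hR⟩ := hQ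
  have hkr : kr D P = kr D Q * kr D R := by
    unfold kr
    rw [hR, eval_mul]
  have h1 : ∀ n, |(((kr D Q).coeff n : ℤ) : ℝ)| ≤ KK D * hgt P := by
    intro n
    have h2 := factor_coeff (kr D Q) (kr D R) (by rw [← hkr]; exact kr_ne h hP)
      ((D + 1) * (D + 1)) (by rw [← hkr]; exact kr_natDegree h) (hgt P)
      (fun n => by rw [← hkr]; exact kr_bound h n) n
    unfold KK
    rw [mul_assoc]
    exact h2
  have h0 : 0 ≤ KK D * hgt P := (abs_nonneg _).trans (h1 0)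
  have h3 : hgt Q ≤ ⌊KK D * hgt P⌋₊ := by
    refine Finset.sup_le fun j _ => Finset.sup_le fun i hi => ?_
    refine Nat.le_floor ?_
    have hi' : i ≤ D := by
      by_contra hcon
      exact (mem_support_iff.1 hi) (coeff_eq_zero_of_natDegree_lt ((hQD.2 j).trans_lt (by omega)))
    have h4 := h1 (i + (D + 1) * j)
    rw [kr_coeff hQD i j hi', ← Int.cast_abs, Int.abs_eq_natAbs, Int.cast_natCast] at h4
    exact h4
  calc (hgt Q : ℝ) ≤ (⌊KK D * hgt P⌋₊ : ℝ) := by exact_mod_cast h3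
    _ ≤ _ := Nat.floor_le h0

/-- the sum of the two degrees -/
noncomputable def sd (P : ℤ[X][X]) : ℕ := P.natDegree + (Bivariate.swap P).natDegree

lemma sd_mul {P Q : ℤ[X][X]} (hP : P ≠ 0) (hQ : Q ≠ 0) : sd (P * Q) = sd P + sd Q := by
  unfold sd
  rw [map_mul, natDegree_mul hP hQ, natDegree_mul (by simpa using hP) (by simpa using hQ)]
  ring

lemma sd_le {D : ℕ} {P : ℤ[X][X]} (h : Deg D P) : sd P ≤ 2 * D := by
  unfold sd
  have h1 : (Bivariate.swap P).natDegree ≤ D := by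
    rw [natDegree_le_iff_coeff_eq_zero]
    intro m hm
    ext l
    rw [H33.SpecIrred.coeff_coeff_swap, coeff_zero]
    exact coeff_eq_zero_of_natDegree_lt ((h.2 l).trans_lt hm)
  have := h.1
  omega

lemma vl_mul (x t : ℂ) (P Q : ℤ[X][X]) : vl x t (P * Q) = vl x t P * vl x t Q := by
  rw [← evR_apply, ← evR_apply, ← evR_apply, map_mul]

lemma vl_C_C (x t : ℂ) (n : ℤ) : vl x t (C (C n)) = n := by
  unfold vl σx
  simp

lemma vl_unit (x t : ℂ) (P : ℤ[X][X]) (hP : IsUnit P) : ‖vl x t P‖ = 1 := by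
  obtain ⟨r, hr, hru⟩ := Polynomial.isUnit_iff.1 hP
  obtain ⟨s, hs, hsr⟩ := Polynomial.isUnit_iff.1 hr
  rw [← hru, ← hsr, vl_C_C]
  rcases Int.isUnit_iff.1 hs with h | h <;> rw [h] <;> simp

lemma sd_zero {P : ℤ[X][X]} (h : sd P = 0) : ∃ n : ℤ, P = C (C n) := by
  unfold sd at h
  have h1 : P.natDegree = 0 := by omega
  have h2 : (Bivariate.swap P).natDegree = 0 := by omega
  refine ⟨(P.coeff 0).coeff 0, ?_⟩
  rw [eq_C_of_natDegree_eq_zero h1, coeff_C_zero]
  congr 1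
  refine eq_C_of_natDegree_eq_zero ?_
  rw [← Nat.le_zero, natDegree_le_iff_coeff_eq_zero]
  intro n hn
  rw [← H33.SpecIrred.coeff_coeff_swap, coeff_eq_zero_of_natDegree_lt (h2.trans_lt hn), coeff_zero]

/-- a lower bound for the value from lower bounds for the values of the prime factors -/
lemma value_of_factors (x t : ℂ) (δ : ℝ) (hδ0 : 0 < δ) (hδ1 : δ ≤ 1) :
    ∀ P : ℤ[X][X], P ≠ 0 → (∀ p, Prime p → p ∣ P → δ ≤ ‖vl x t p‖) → δ ^ (sd P) ≤ ‖vl x t P‖ := by
  intro P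
  induction P using UniqueFactorizationMonoid.induction_on_prime with
  | h₁ => intro h; exact absurd rfl h
  | h₂ P hP =>
    intro _ _
    rw [vl_unit x t P hP]
    exact pow_le_one₀ hδ0.le hδ1
  | h₃ a p ha hp ih =>
    intro _ hfac
    have hp0 : p ≠ 0 := hp.ne_zero
    rw [sd_mul hp0 ha, pow_add, vl_mul, norm_mul]
    have h1 := ih ha fun q hq hqa => hfac q hq (hqa.mul_left p)
    refine mul_le_mul ?_ h1 (by positivity) (norm_nonneg _)
    by_cases hs : sd p = 0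
    · obtain ⟨n, hn⟩ := sd_zero hs
      rw [hs, pow_zero, hn, vl_C_C, Complex.norm_intCast]
      have hn0 : n ≠ 0 := by
        rintro rfl
        exact hp0 (by rw [hn, C_0, C_0])
      exact_mod_cast Int.one_le_abs hn0
    · exact (pow_le_of_le_one hδ0.le hδ1 hs).trans (hfac p hp (dvd_mul_right p a))

/-- a small value comes from a small value of a normalised irreducible factor -/
lemma small_factor (x t : ℂ) {D : ℕ} {δ : ℝ} (hδ0 : 0 < δ) (hδ1 : δ ≤ 1) {P : ℤ[X][X]} (hP : P ≠ 0)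
    (hPD : Deg D P) (hs : ‖vl x t P‖ < δ ^ (2 * D)) :
    ∃ Q ∈ IR D, Q ∣ P ∧ ‖vl x t Q‖ < δ := by
  by_contra hcon
  push Not at hcon
  have h1 : ∀ p, Prime p → p ∣ P → δ ≤ ‖vl x t p‖ := by
    intro p hp hpP
    have hpD := deg_of_dvd hP hPD hpP
    have hlc : p.leadingCoeff.leadingCoeff ≠ 0 := by
      rw [Ne, leadingCoeff_eq_zero, leadingCoeff_eq_zero]
      exact hp.ne_zero
    rcases lt_or_gt_of_ne hlc with h | h
    · have h2 := hcon (-p) ⟨hp.neg.irreducible, by rw [natDegree_neg]; exact hpD.1,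
        fun j => by rw [coeff_neg, natDegree_neg]; exact hpD.2 j,
        by rw [leadingCoeff_neg, leadingCoeff_neg]; linarith⟩ ((neg_dvd).2 hpP)
      have h3 : vl x t (-p) = - vl x t p := by
        rw [← evR_apply, ← evR_apply, map_neg]
      rwa [h3, norm_neg] at h2
    · exact hcon p ⟨hp.irreducible, hpD.1, hpD.2, h⟩ hpP
  have h2 := value_of_factors x t δ hδ0 hδ1 P hP h1
  have h3 : δ ^ (2 * D) ≤ δ ^ (sd P) := pow_le_pow_of_le_one hδ0.le hδ1 (sd_le hPD)
  linarith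

end Pool.Agent.X327.AM
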