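import Pool.Agent.X327.AM.Fac

/-!
# The polynomials which are small at `(x, t)`, where `x` has a transcendence measure and `t` is arbitrary
-/

set_option autoImplicit false

namespace Pool.Agent.X327.AM

open Polynomial Finset
open Pool.Agent.TH456.TM

lemma deg_of_IR {D : ℕ} {Q : ℤ[X][X]} (h : Q ∈ IR D) : Deg D Q := ⟨h.2.1, h.2.2.1⟩

/-- the exponent of the elimination argument -/
lemma kappa0 (x : ℂ) (hx : MeasT x) (D : ℕ) (hD : 1 ≤ D) :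
    ∃ κ : ℝ, 0 < κ ∧ ∀ T : ℝ, ∃ C : ℝ, 0 < C ∧ C ≤ 1 ∧ ∀ t : ℂ, ‖t‖ ≤ T → ∀ P ∈ IR D, ∀ Q ∈ IR D,
      ∀ H : ℝ, (hgt P : ℝ) ≤ H → (hgt Q : ℝ) ≤ H → ‖vl x t P‖ < C * H ^ (-κ) →
        ‖vl x t Q‖ < C * H ^ (-κ) → P = Q := by
  obtain ⟨κ, hκ, h⟩ := core x hx D hD
  refine ⟨κ, hκ, fun T => ?_⟩
  obtain ⟨C, hC, h⟩ := h T
  refine ⟨min C 1, lt_min hC one_pos, min_le_right _ _, ?_⟩
  intro t ht P hP Q hQ H hPH hQH h1 h2
  by_contra hne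
  have h3 := h t ht P hP Q hQ hne H hPH hQH
  have hH0 : 0 < H := by
    have : (1 : ℝ) ≤ hgt P := by exact_mod_cast hgt_pos P hP.1.ne_zero
    linarith
  have h4 : min C 1 * H ^ (-κ) ≤ C * H ^ (-κ) := by
    have := min_le_left C 1
    gcongr
  have h5 := max_lt h1 h2
  linarith

/-- **At every height at most one irreducible polynomial is responsible for all the small values.** -/
theorem one_relation (x : ℂ) (hx : MeasT x) (D : ℕ) (hD : 1 ≤ D) :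
    ∃ κ : ℝ, 0 < κ ∧ ∀ T : ℝ, ∃ C : ℝ, 0 < C ∧ ∀ t : ℂ, ‖t‖ ≤ T → ∀ H : ℝ, 1 ≤ H →
      ∃ Q : ℤ[X][X], Irreducible Q ∧ Deg D Q ∧ ∀ P : ℤ[X][X], P ≠ 0 → Deg D P → (hgt P : ℝ) ≤ H →
        ‖vl x t P‖ < C * H ^ (-κ) → Q ∣ P := by
  obtain ⟨κ, hκ, h⟩ := kappa0 x hx D hD
  have hK := one_le_KK D
  refine ⟨κ * (2 * D : ℕ), by positivity, fun T => ?_⟩
  obtain ⟨C, hC, hC1, h⟩ := h T
  refine ⟨(C * KK D ^ (-κ)) ^ (2 * D), by positivity, fun t ht H hH => ?_⟩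
  have hH0 : 0 < H := by linarith
  have hδ : (C * KK D ^ (-κ)) ^ (2 * D) * H ^ (-(κ * (2 * D : ℕ))) =
      (C * (KK D * H) ^ (-κ)) ^ (2 * D) := by
    rw [Real.mul_rpow (by linarith) hH0.le, ← mul_assoc, mul_pow (C * KK D ^ (-κ))]
    congr 1
    rw [← Real.rpow_natCast, ← Real.rpow_mul hH0.le]
    congr 1
    ring
  have hδ0 : 0 < C * (KK D * H) ^ (-κ) := by positivity
  have hδ1 : C * (KK D * H) ^ (-κ) ≤ 1 := by
    have h1 : (KK D * H) ^ (-κ) ≤ 1 :=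
      Real.rpow_le_one_of_one_le_of_nonpos (by nlinarith) (by linarith)
    calc C * (KK D * H) ^ (-κ) ≤ 1 * 1 := by gcongr
      _ = 1 := one_mul 1
  have key : ∀ P : ℤ[X][X], P ≠ 0 → Deg D P → (hgt P : ℝ) ≤ H →
      ‖vl x t P‖ < (C * (KK D * H) ^ (-κ)) ^ (2 * D) →
      ∃ Q ∈ IR D, Q ∣ P ∧ (hgt Q : ℝ) ≤ KK D * H ∧ ‖vl x t Q‖ < C * (KK D * H) ^ (-κ) := by
    intro P hP hPD hPH hs
    obtain ⟨Q, hQ, hQP, hQs⟩ := small_factor x t hδ0 hδ1 hP hPD hs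
    refine ⟨Q, hQ, hQP, (hgt_of_dvd hP hPD hQP).trans ?_, hQs⟩
    gcongr
  rw [hδ]
  by_cases hex : ∃ P : ℤ[X][X], P ≠ 0 ∧ Deg D P ∧ (hgt P : ℝ) ≤ H ∧
      ‖vl x t P‖ < (C * (KK D * H) ^ (-κ)) ^ (2 * D)
  · obtain ⟨P₀, hP₀, hP₀D, hP₀H, hP₀s⟩ := hex
    obtain ⟨Q, hQ, -, hQH, hQs⟩ := key P₀ hP₀ hP₀D hP₀H hP₀s
    refine ⟨Q, hQ.1, deg_of_IR hQ, fun P hP hPD hPH hs => ?_⟩
    obtain ⟨Q', hQ', hQP', hQH', hQs'⟩ := key P hP hPD hPH hs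
    rw [h t ht Q hQ Q' hQ' (KK D * H) hQH hQH' hQs hQs']
    exact hQP'
  · refine ⟨X, irreducible_X, ⟨by rw [natDegree_X]; exact hD, fun j => ?_⟩,
      fun P hP hPD hPH hs => absurd ⟨P, hP, hPD, hPH, hs⟩ hex⟩
    rw [coeff_X]
    split_ifs <;> simp

/-- **The exponent is finite for arbitrarily large heights**, unless there is a relation. -/
theorem large_heights (x : ℂ) (hx : MeasT x) (D : ℕ) (hD : 1 ≤ D) :
    ∃ κ : ℝ, 0 < κ ∧ ∀ t : ℂ, (∀ P : ℤ[X][X], P ≠ 0 → Deg D P → vl x t P ≠ 0) → ∀ H₀ : ℝ,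
      ∃ H : ℝ, H₀ ≤ H ∧ 1 ≤ H ∧ ∀ P : ℤ[X][X], P ≠ 0 → Deg D P → (hgt P : ℝ) ≤ H →
        H ^ (-κ) ≤ ‖vl x t P‖ := by
  obtain ⟨κ, hκ, h⟩ := kappa0 x hx D hD
  have hK := one_le_KK D
  refine ⟨(κ + 1) * (2 * D : ℕ), by positivity, fun t hind H₀ => ?_⟩
  obtain ⟨C, hC, hC1, h⟩ := h ‖t‖
  by_contra hcon
  push Not at hcon
  -- the threshold
  obtain ⟨H₁, hH₁⟩ : ∃ H₁ : ℝ, H₁ = max (max H₀ 1) ((2 * KK D) ^ κ / C) := ⟨_, rfl⟩
  have hH₁0 : H₀ ≤ H₁ := by rw [hH₁]; exact (le_max_left _ _).trans (le_max_left _ _)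
  have hH₁1 : 1 ≤ H₁ := by rw [hH₁]; exact (le_max_right _ _).trans (le_max_left _ _)
  have hH₁2 : (2 * KK D) ^ κ / C ≤ H₁ := by rw [hH₁]; exact le_max_right _ _
  have key : ∀ H : ℝ, H₁ ≤ H → ∃ Q ∈ IR D, (hgt Q : ℝ) ≤ KK D * H ∧ ‖vl x t Q‖ < H ^ (-(κ + 1)) := by
    intro H hH
    obtain ⟨P, hP, hPD, hPH, hs⟩ := hcon H (hH₁0.trans hH) (hH₁1.trans hH)
    have hH0 : 0 < H := by linarith
    have h1 : H ^ (-((κ + 1) * (2 * D : ℕ))) = (H ^ (-(κ + 1))) ^ (2 * D) := by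
      rw [← Real.rpow_natCast (H ^ (-(κ + 1))), ← Real.rpow_mul hH0.le]
      congr 1
      ring
    rw [h1] at hs
    obtain ⟨Q, hQ, hQP, hQs⟩ := small_factor x t (by positivity)
      (Real.rpow_le_one_of_one_le_of_nonpos (hH₁1.trans hH) (by linarith)) hP hPD hs
    refine ⟨Q, hQ, (hgt_of_dvd hP hPD hQP).trans ?_, hQs⟩
    gcongr
  choose! q hqI hqH hqs using key
  have hsmall : ∀ H : ℝ, H₁ ≤ H → H ^ (-(κ + 1)) ≤ C * (KK D * (2 * H)) ^ (-κ) := by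
    intro H hH
    have hH0 : 0 < H := by linarith
    have h1 : (2 * KK D) ^ κ ≤ C * H := by
      rw [div_le_iff₀ hC] at hH₁2
      nlinarith
    have h2 : KK D * (2 * H) = (2 * KK D) * H := by ring
    rw [h2, Real.mul_rpow (by linarith) hH0.le]
    have h3 : H ^ (-(κ + 1)) = H ^ (-κ) * H⁻¹ := by
      rw [show -(κ + 1) = -κ + (-1) by ring, Real.rpow_add hH0, Real.rpow_neg_one]
    rw [h3, Real.rpow_neg (by linarith : (0 : ℝ) ≤ 2 * KK D)]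
    have h4 : H⁻¹ ≤ C * ((2 * KK D) ^ κ)⁻¹ := by
      rw [← div_eq_mul_inv, inv_eq_one_div, div_le_div_iff₀ hH0 (by positivity), one_mul]
      exact h1
    calc H ^ (-κ) * H⁻¹ ≤ H ^ (-κ) * (C * ((2 * KK D) ^ κ)⁻¹) := by gcongr
      _ = _ := by ring
  have hstep : ∀ H : ℝ, H₁ ≤ H → q H = q (2 * H) := by
    intro H hH
    have hH0 : 0 < H := by linarith
    have h2H : H₁ ≤ 2 * H := by linarith
    refine h t le_rfl _ (hqI H hH) _ (hqI (2 * H) h2H) (KK D * (2 * H)) ?_ (hqH (2 * H) h2H) ?_ ?_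
    · refine (hqH H hH).trans ?_
      gcongr
      linarith
    · exact (hqs H hH).trans_le (hsmall H hH)
    · refine ((hqs (2 * H) h2H).trans_le ?_).trans_le (hsmall H hH)
      exact Real.rpow_le_rpow_of_nonpos hH0 (by linarith) (by linarith)
  have hconst : ∀ n : ℕ, q (2 ^ n * H₁) = q H₁ := by
    intro n
    induction n with
    | zero => simp
    | succ n ih =>
      rw [← ih, pow_succ, show (2 : ℝ) ^ n * 2 * H₁ = 2 * (2 ^ n * H₁) by ring]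
      refine (hstep _ ?_).symm
      have : (1 : ℝ) ≤ 2 ^ n := one_le_pow₀ (by norm_num)
      nlinarith
  have hzero : vl x t (q H₁) = 0 := by
    rw [← norm_le_zero_iff]
    refine le_of_forall_pos_le_add fun ε hε => ?_
    rw [zero_add]
    obtain ⟨n, hn⟩ := pow_unbounded_of_one_lt (1 / ε) (show (1 : ℝ) < 2 by norm_num)
    have h2n : (1 : ℝ) ≤ 2 ^ n := one_le_pow₀ (by norm_num)
    have hge : H₁ ≤ 2 ^ n * H₁ := by nlinarith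
    have h1 := hqs (2 ^ n * H₁) hge
    rw [hconst] at h1
    have h2 : (1 : ℝ) ≤ 2 ^ n * H₁ := by linarith
    have h3 : (2 ^ n * H₁) ^ (-(κ + 1)) ≤ (2 ^ n * H₁) ^ (-1 : ℝ) :=
      Real.rpow_le_rpow_of_exponent_le h2 (by linarith)
    have h4 : (2 ^ n * H₁) ^ (-1 : ℝ) ≤ ε := by
      rw [Real.rpow_neg_one, inv_le_comm₀ (by linarith) hε, inv_eq_one_div]
      nlinarith
    linarith
  exact hind (q H₁) (hqI H₁ le_rfl).1.ne_zero (deg_of_IR (hqI H₁ le_rfl)) hzero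

end Pool.Agent.X327.AM
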