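import Pool.Agent.X327.AM.Main

/-!
# All statements with one exponent
-/

set_option autoImplicit false

namespace Pool.Agent.X327.AM

open Polynomial Finset
open Pool.Agent.TH456.TM

lemma vl_neg (x t : ℂ) (P : ℤ[X][X]) : vl x t (-P) = - vl x t P := by
  rw [← evR_apply, ← evR_apply, map_neg]

lemma hgt_neg (P : ℤ[X][X]) : hgt (-P) = hgt P := by
  unfold hgt
  rw [support_neg]
  refine Finset.sup_congr rfl fun j _ => ?_
  rw [coeff_neg, support_neg]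
  refine Finset.sup_congr rfl fun i _ => ?_
  rw [coeff_neg, Int.natAbs_neg]

/-- every irreducible polynomial is normalised up to the sign -/
lemma exists_norm {D : ℕ} {P : ℤ[X][X]} (hP : Irreducible P) (hD : Deg D P) :
    ∃ P' ∈ IR D, (P' = P ∨ P' = -P) := by
  have hlc : P.leadingCoeff.leadingCoeff ≠ 0 := by
    rw [Ne, leadingCoeff_eq_zero, leadingCoeff_eq_zero]
    exact hP.ne_zero
  rcases lt_or_gt_of_ne hlc with h | h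
  · exact ⟨-P, ⟨(Prime.neg hP.prime).irreducible, by rw [natDegree_neg]; exact hD.1,
      fun j => by rw [coeff_neg, natDegree_neg]; exact hD.2 j,
      by rw [leadingCoeff_neg, leadingCoeff_neg]; linarith⟩, Or.inr rfl⟩
  · exact ⟨P, ⟨hP, hD.1, hD.2, h⟩, Or.inl rfl⟩

/-- two irreducible polynomials which are not associated -/
theorem pair (x : ℂ) (hx : MeasT x) (D : ℕ) (hD : 1 ≤ D) :
    ∃ κ : ℝ, 0 < κ ∧ ∀ T : ℝ, ∃ C : ℝ, 0 < C ∧ ∀ t : ℂ, ‖t‖ ≤ T → ∀ P Q : ℤ[X][X],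
      Irreducible P → Deg D P → Irreducible Q → Deg D Q → ¬ Associated P Q →
      ∀ H : ℝ, (hgt P : ℝ) ≤ H → (hgt Q : ℝ) ≤ H → C * H ^ (-κ) ≤ max ‖vl x t P‖ ‖vl x t Q‖ := by
  obtain ⟨κ, hκ, h⟩ := core x hx D hD
  refine ⟨κ, hκ, fun T => ?_⟩
  obtain ⟨C, hC, h⟩ := h T
  refine ⟨C, hC, fun t ht P Q hP hPD hQ hQD hne H hPH hQH => ?_⟩
  obtain ⟨P', hP', h1⟩ := exists_norm hP hPD
  obtain ⟨Q', hQ', h2⟩ := exists_norm hQ hQD
  have hv1 : ‖vl x t P'‖ = ‖vl x t P‖ := by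
    rcases h1 with h1 | h1 <;> rw [h1]
    rw [vl_neg, norm_neg]
  have hv2 : ‖vl x t Q'‖ = ‖vl x t Q‖ := by
    rcases h2 with h2 | h2 <;> rw [h2]
    rw [vl_neg, norm_neg]
  have hh1 : hgt P' = hgt P := by
    rcases h1 with h1 | h1 <;> rw [h1]
    rw [hgt_neg]
  have hh2 : hgt Q' = hgt Q := by
    rcases h2 with h2 | h2 <;> rw [h2]
    rw [hgt_neg]
  have h3 := h t ht P' hP' Q' hQ' (by
    rintro rfl
    apply hne
    rcases h1 with h1 | h1 <;> rcases h2 with h2 | h2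
    · rw [← h1, ← h2]
    · rw [← h1, show Q = -P' by rw [h2, neg_neg]]
      exact (Associated.refl P').neg_right
    · rw [← h2, show P = -P' by rw [h1, neg_neg]]
      exact (Associated.refl P').neg_left
    · rw [show P = -P' by rw [h1, neg_neg], show Q = -P' by rw [h2, neg_neg]]) H
      (by rw [hh1]; exact hPH) (by rw [hh2]; exact hQH)
  rwa [hv1, hv2] at h3

/-- the statement with the exponent `κ` -/
def Stmt (x : ℂ) (D : ℕ) (κ : ℝ) : Prop :=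
  (∀ T : ℝ, ∃ C : ℝ, 0 < C ∧ ∀ t : ℂ, ‖t‖ ≤ T →
    (∀ P Q : ℤ[X][X], Irreducible P → Deg D P → Irreducible Q → Deg D Q → ¬ Associated P Q →
      ∀ H : ℝ, (hgt P : ℝ) ≤ H → (hgt Q : ℝ) ≤ H → C * H ^ (-κ) ≤ max ‖vl x t P‖ ‖vl x t Q‖) ∧
    (∀ H : ℝ, 1 ≤ H → ∃ Q : ℤ[X][X], Irreducible Q ∧ Deg D Q ∧ ∀ P : ℤ[X][X], P ≠ 0 → Deg D P →
      (hgt P : ℝ) ≤ H → ‖vl x t P‖ < C * H ^ (-κ) → Q ∣ P)) ∧
  (∀ t : ℂ, (∀ P : ℤ[X][X], P ≠ 0 → Deg D P → vl x t P ≠ 0) → ∀ H₀ : ℝ,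
    ∃ H : ℝ, H₀ ≤ H ∧ 1 ≤ H ∧ ∀ P : ℤ[X][X], P ≠ 0 → Deg D P → (hgt P : ℝ) ≤ H →
      H ^ (-κ) ≤ ‖vl x t P‖) ∧
  (∀ (t : ℂ) (w ρ : ℝ), 1 < ρ → ρ < w / κ → ∃ C : ℝ, ∀ X : ℝ, 3 ≤ X →
    {P ∈ {P : ℤ[X][X] | P ∈ IR D ∧ ‖vl x t P‖ ≤ (hgt P : ℝ) ^ (-w)} | (hgt P : ℝ) ≤ X}.Finite ∧
    ({P ∈ {P : ℤ[X][X] | P ∈ IR D ∧ ‖vl x t P‖ ≤ (hgt P : ℝ) ^ (-w)} | (hgt P : ℝ) ≤ X}.ncard : ℝ) ≤
      Real.log (Real.log X) / Real.log ρ + C)

theorem main (x : ℂ) (hx : MeasT x) (D : ℕ) (hD : 1 ≤ D) : ∃ κ : ℝ, 0 < κ ∧ Stmt x D κ := by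
  obtain ⟨κ₁, hκ₁, h1⟩ := pair x hx D hD
  obtain ⟨κ₂, hκ₂, h2⟩ := one_relation x hx D hD
  obtain ⟨κ₃, hκ₃, h3⟩ := large_heights x hx D hD
  obtain ⟨κ₄, hκ₄, h4⟩ := core x hx D hD
  obtain ⟨κ, hκ⟩ : ∃ κ, κ = max (max κ₁ κ₂) (max κ₃ κ₄) := ⟨_, rfl⟩
  have l1 : κ₁ ≤ κ := by rw [hκ]; exact (le_max_left _ _).trans (le_max_left _ _)
  have l2 : κ₂ ≤ κ := by rw [hκ]; exact (le_max_right _ _).trans (le_max_left _ _)
  have l3 : κ₃ ≤ κ := by rw [hκ]; exact (le_max_left _ _).trans (le_max_right _ _)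
  have l4 : κ₄ ≤ κ := by rw [hκ]; exact (le_max_right _ _).trans (le_max_right _ _)
  have hκ0 : 0 < κ := by linarith
  refine ⟨κ, hκ0, fun T => ?_, ?_, ?_⟩
  · obtain ⟨C₁, hC₁, h1⟩ := h1 T
    obtain ⟨C₂, hC₂, h2⟩ := h2 T
    refine ⟨min C₁ C₂, lt_min hC₁ hC₂, fun t ht => ⟨?_, ?_⟩⟩
    · intro P Q hP hPD hQ hQD hne H hPH hQH
      have hH1 : 1 ≤ H := by
        have : (1 : ℝ) ≤ hgt P := by exact_mod_cast hgt_pos P hP.ne_zero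
        linarith
      have a1 : H ^ (-κ) ≤ H ^ (-κ₁) := Real.rpow_le_rpow_of_exponent_le hH1 (by linarith)
      have a2 := min_le_left C₁ C₂
      calc min C₁ C₂ * H ^ (-κ) ≤ C₁ * H ^ (-κ₁) := by gcongr
        _ ≤ _ := h1 t ht P Q hP hPD hQ hQD hne H hPH hQH
    · intro H hH1
      obtain ⟨Q, hQ, hQD, h⟩ := h2 t ht H hH1
      refine ⟨Q, hQ, hQD, fun P hP hPD hPH hs => h P hP hPD hPH (hs.trans_le ?_)⟩
      have a1 : H ^ (-κ) ≤ H ^ (-κ₂) := Real.rpow_le_rpow_of_exponent_le hH1 (by linarith)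
      have a2 := min_le_right C₁ C₂
      gcongr
  · intro t ht H₀
    obtain ⟨H, hH0, hH1, h⟩ := h3 t ht H₀
    exact ⟨H, hH0, hH1, fun P hP hPD hPH =>
      (Real.rpow_le_rpow_of_exponent_le hH1 (by linarith)).trans (h P hP hPD hPH)⟩
  · intro t w ρ hρ hρw
    have hw : 0 < w := by
      rw [lt_div_iff₀ hκ0] at hρw
      nlinarith
    refine sparse_alg x D κ₄ hκ₄ h4 t w ρ hρ (hρw.trans_le ?_)
    gcongr

/-- logarithms of roots of Gaussian rational numbers -/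
theorem measT_log_root (θ : ℂ) (hθ : θ ≠ 0) (m : ℕ) (hm : 1 ≤ m) (a b : GaussianInt) (hb : b ≠ 0)
    (hab : GaussianInt.toComplex b * Complex.exp (m * θ) = GaussianInt.toComplex a) : MeasT θ := by
  have hm0 : (m : ℂ) ≠ 0 := by
    have : m ≠ 0 := by omega
    exact_mod_cast this
  have h1 := measT_gauss (m * θ) (mul_ne_zero hm0 hθ) a b 1 hb (by simp) hab
  rw [map_one, one_mul] at h1
  have h2 := measT_mul_alg h1 ((m : ℂ)⁻¹) (IsAlgebraic.inv (isAlgebraic_algebraMap (m : ℤ)))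
    (inv_ne_zero hm0)
  convert h2 using 1
  field_simp

end Pool.Agent.X327.AM
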